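import Pool.Agent.Helper10.AB.GoalsEMB

/-!
# Project AB (MP_1ef41b_an), module EMB, packet SER: the Poincaré series is differentiable
-/

set_option autoImplicit false

open Set Filter Topology
open scoped ContDiff

noncomputable section

namespace Pool.Agent.Helper80.AB

open Pool.Agent.Helper24.AB Pool.Agent.Helper10.AB

/-! ## numerical bounds -/

theorem exp_two_pi : (9 : ℝ) ≤ Real.exp (2 * Real.pi) := by
  have h1 : (6 : ℝ) ≤ 2 * Real.pi := by linarith [Real.pi_gt_three]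
  have h2 : (2 : ℝ) ≤ Real.exp 1 := by
    have := Real.add_one_le_exp (1 : ℝ)
    linarith
  have h3 : Real.exp 6 = Real.exp 1 ^ 6 := by
    rw [← Real.exp_nat_mul]
    norm_num
  calc (9 : ℝ) ≤ 2 ^ 6 := by norm_num
    _ ≤ Real.exp 1 ^ 6 := pow_le_pow_left₀ (by norm_num) h2 6
    _ = Real.exp 6 := h3.symm
    _ ≤ _ := Real.exp_le_exp.2 h1

theorem cosh_lower {R y : ℝ} (hy : |y| ≤ R) (k : ℤ) :
    Real.exp (-R) / 2 * ((3 : ℝ) ^ k.natAbs) ^ 2 ≤ Real.cosh (y + 2 * Real.pi * k) := by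
  have h1 : Real.exp |y + 2 * Real.pi * k| / 2 ≤ Real.cosh (y + 2 * Real.pi * k) := by
    rw [← Real.cosh_abs, Real.cosh_eq]
    have := Real.exp_pos (-|y + 2 * Real.pi * k|)
    linarith
  refine le_trans ?_ h1
  have h2 : 2 * Real.pi * (k.natAbs : ℝ) - R ≤ |y + 2 * Real.pi * k| := by
    have h3 : |2 * Real.pi * (k : ℝ)| = 2 * Real.pi * (k.natAbs : ℝ) := by
      rw [abs_mul, abs_of_pos (by positivity : (0 : ℝ) < 2 * Real.pi), Nat.cast_natAbs,
        Int.cast_abs]
    have h4 : |2 * Real.pi * (k : ℝ)| ≤ |y + 2 * Real.pi * k| + |y| := by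
      have := abs_sub (y + 2 * Real.pi * k) y
      rw [add_sub_cancel_left] at this
      exact this
    linarith
  have h5 : ((3 : ℝ) ^ k.natAbs) ^ 2 ≤ Real.exp (2 * Real.pi * (k.natAbs : ℝ)) := by
    rw [← pow_mul, mul_comm k.natAbs 2, pow_mul, mul_comm (2 * Real.pi), Real.exp_nat_mul]
    refine pow_le_pow_left₀ (by norm_num) ?_ _
    have := exp_two_pi
    norm_num
    linarith
  have h6 : Real.exp (-R) * Real.exp (2 * Real.pi * (k.natAbs : ℝ)) ≤
      Real.exp |y + 2 * Real.pi * k| := by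
    rw [← Real.exp_add]
    exact Real.exp_le_exp.2 (by linarith)
  have h7 : Real.exp (-R) * ((3 : ℝ) ^ k.natAbs) ^ 2 ≤
      Real.exp (-R) * Real.exp (2 * Real.pi * (k.natAbs : ℝ)) :=
    mul_le_mul_of_nonneg_left h5 (Real.exp_pos _).le
  linarith

/-- the elementary bound of the terms -/
theorem term_bound {A B x : ℝ} (hB : 0 < B) (hx : 0 < x) :
    x * (Real.exp (A * x) * Real.exp (-(B * x ^ 2))) ≤
      6 * Real.exp ((A + 1) ^ 2 / (4 * B)) * (1 / x ^ 2) := by
  have h1 : A * x + -(B * x ^ 2) ≤ (A + 1) ^ 2 / (4 * B) + -x := by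
    have h2 : 0 ≤ B * (x - (A + 1) / (2 * B)) ^ 2 := by positivity
    have h3 : B * (x - (A + 1) / (2 * B)) ^ 2 =
        B * x ^ 2 - (A + 1) * x + (A + 1) ^ 2 / (4 * B) := by
      field_simp
      ring
    linarith
  have h4 : Real.exp (-x) ≤ 6 / x ^ 3 := by
    have h5 : x ^ 3 / 6 ≤ Real.exp x := by
      have := Real.pow_div_factorial_le_exp x hx.le 3
      have e : ((Nat.factorial 3 : ℕ) : ℝ) = 6 := by norm_num [Nat.factorial]
      rwa [e] at this
    rw [Real.exp_neg, inv_eq_one_div, div_le_div_iff₀ (Real.exp_pos x) (by positivity)]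
    linarith
  rw [← Real.exp_add]
  calc x * Real.exp (A * x + -(B * x ^ 2))
      ≤ x * Real.exp ((A + 1) ^ 2 / (4 * B) + -x) :=
        mul_le_mul_of_nonneg_left (Real.exp_le_exp.2 h1) hx.le
    _ = x * (Real.exp ((A + 1) ^ 2 / (4 * B)) * Real.exp (-x)) := by rw [Real.exp_add]
    _ ≤ x * (Real.exp ((A + 1) ^ 2 / (4 * B)) * (6 / x ^ 3)) := by
        refine mul_le_mul_of_nonneg_left ?_ hx.le
        exact mul_le_mul_of_nonneg_left h4 (Real.exp_pos _).le
    _ = 6 * Real.exp ((A + 1) ^ 2 / (4 * B)) * (1 / x ^ 2) := by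
        field_simp

theorem summable_bd (D : ℝ) : Summable fun k : ℤ => D * (1 / ((3 : ℝ) ^ k.natAbs) ^ 2) := by
  refine Summable.mul_left D ?_
  have h1 : Summable fun n : ℕ => (1 / 9 : ℝ) ^ n :=
    summable_geometric_of_lt_one (by norm_num) (by norm_num)
  have h2 : ∀ n : ℕ, 1 / ((3 : ℝ) ^ n) ^ 2 = (1 / 9 : ℝ) ^ n := by
    intro n
    rw [← pow_mul, mul_comm n 2, pow_mul, one_div_pow]
    norm_num
  refine Summable.of_nat_of_neg ?_ ?_
  · simp only [Int.natAbs_natCast, h2]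
    exact h1
  · simp only [Int.natAbs_neg, Int.natAbs_natCast, h2]
    exact h1

/-! ## the linear forms and the monomials -/

/-- the size of the exponent -/
def NJ (J : Fin 3 → ℤ) : ℝ := |(J 0 : ℝ)| + |(J 1 : ℝ)| + |(J 2 : ℝ)|

theorem NJ_nonneg (J : Fin 3 → ℤ) : 0 ≤ NJ J := by
  unfold NJ
  positivity

theorem lin_bound (J : Fin 3 → ℤ) (Q : V4) {M : ℝ} (h : ∀ j : Fin 4, j ≠ 3 → ‖Q j‖ ≤ M) :
    ‖(J 0 : ℂ) * Q 0 + (J 1 : ℂ) * Q 1 + (J 2 : ℂ) * Q 2‖ ≤ NJ J * M := by
  have h0 := h 0 (by decide)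
  have h1 := h 1 (by decide)
  have h2 := h 2 (by decide)
  have e : ∀ j, ‖(J j : ℂ)‖ = |(J j : ℝ)| := fun j => by
    rw [Complex.norm_intCast]
  have m0 : ‖(J 0 : ℂ) * Q 0‖ ≤ |(J 0 : ℝ)| * M := by
    rw [norm_mul, e]
    exact mul_le_mul_of_nonneg_left h0 (abs_nonneg _)
  have m1 : ‖(J 1 : ℂ) * Q 1‖ ≤ |(J 1 : ℝ)| * M := by
    rw [norm_mul, e]
    exact mul_le_mul_of_nonneg_left h1 (abs_nonneg _)
  have m2 : ‖(J 2 : ℂ) * Q 2‖ ≤ |(J 2 : ℝ)| * M := by
    rw [norm_mul, e]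
    exact mul_le_mul_of_nonneg_left h2 (abs_nonneg _)
  refine (norm_add₃_le).trans ?_
  unfold NJ
  linarith

theorem mon_bound (J : Fin 3 → ℤ) (Q : V4) {M : ℝ} (h : ∀ j : Fin 4, j ≠ 3 → ‖Q j‖ ≤ M) :
    ‖mon J Q‖ ≤ Real.exp (NJ J * M) :=
  (Complex.norm_exp_le_exp_norm _).trans (Real.exp_le_exp.2 (lin_bound J Q h))

theorem lJ_apply (J : Fin 3 → ℤ) (v : V4) :
    lJ J v = (J 0 : ℂ) * v 0 + (J 1 : ℂ) * v 1 + (J 2 : ℂ) * v 2 := rfl

theorem norm_lJ (J : Fin 3 → ℤ) : ‖lJ J‖ ≤ NJ J := by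
  refine ContinuousLinearMap.opNorm_le_bound _ (NJ_nonneg J) fun v => ?_
  rw [lJ_apply]
  exact lin_bound J v fun j _ => norm_le_pi_norm v j

theorem norm_dw : ‖dw‖ ≤ 1 := by
  refine ContinuousLinearMap.opNorm_le_bound _ zero_le_one fun v => ?_
  rw [one_mul]
  exact norm_le_pi_norm v 3

theorem mon_hasF (J : Fin 3 → ℤ) (P : V4) : HasFDerivAt (mon J) (mon J P • lJ J) P := by
  have h1 : HasFDerivAt (fun P : V4 => lJ J P) (lJ J) P := (lJ J).hasFDerivAt
  have h2 := h1.cexp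
  exact h2

theorem hC_hasF {β β' : ℂ → ℂ} (hG : Good β β') (J : Fin 3 → ℤ) {P : V4} (hP : |(P 3).re| < 1) :
    HasFDerivAt (hC β J) (hD β β' J P) P := by
  have h1 : HasFDerivAt (fun P : V4 => -(Complex.I * P 3)) (-(Complex.I • dw)) P := by
    have : HasFDerivAt (fun P : V4 => dw P) dw P := dw.hasFDerivAt
    exact (this.const_mul Complex.I).neg
  have h2 : |(-(Complex.I * P 3)).im| < 1 := by
    have : (-(Complex.I * P 3)).im = -(P 3).re := by simp
    rw [this, abs_neg]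
    exact hP
  have h3 : HasFDerivAt (fun P : V4 => β (-(Complex.I * P 3)))
      (β' (-(Complex.I * P 3)) • (-(Complex.I • dw))) P :=
    (hG.der _ h2).comp_hasFDerivAt P h1
  have h4 := h3.mul (mon_hasF J P)
  unfold hC hD
  refine h4.congr_fderiv ?_
  ext v
  simp only [ContinuousLinearMap.add_apply, ContinuousLinearMap.smul_apply,
    ContinuousLinearMap.neg_apply, smul_eq_mul]
  ring

/-! ## the terms of the series -/

theorem ser (hact : S_ACT1) : S_SER := by
  intro β β' hG J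
  obtain ⟨a1, a2, a3, -⟩ := hact
  obtain ⟨C0, c, hc, hbd0⟩ := hG.bd
  -- a nonnegative constant
  set C := |C0| with hCdef
  have hC0 : 0 ≤ C := abs_nonneg _
  have hbd : ∀ ζ : ℂ, |ζ.im| < 1 →
      ‖β ζ‖ ≤ C * Real.exp (-(c * Real.cosh ζ.re)) ∧
      ‖β' ζ‖ ≤ C * Real.exp (-(c * Real.cosh ζ.re)) := by
    intro ζ hζ
    have h1 := hbd0 ζ hζ
    have h2 : C0 * Real.exp (-(c * Real.cosh ζ.re)) ≤ C * Real.exp (-(c * Real.cosh ζ.re)) :=
      mul_le_mul_of_nonneg_right (le_abs_self _) (Real.exp_pos _).le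
    exact ⟨h1.1.trans h2, h1.2.trans h2⟩
  have g3 : ∀ (k : ℤ) (P : V4), ((gE ^ k) P) 3 = P 3 + 2 * Real.pi * Complex.I * k := by
    intro k P
    rw [a1 k P]
    show gk k P 3 + (if (3 : Fin 4) = 3 then 2 * Real.pi * Complex.I * k else 0) = _
    rw [a3, if_pos rfl]
  have gj : ∀ (k : ℤ) (P : V4) (j : Fin 4), j ≠ 3 → ((gE ^ k) P) j = gk k P j := by
    intro k P j hj
    rw [a1 k P]
    show gk k P j + (if j = 3 then 2 * Real.pi * Complex.I * k else 0) = _
    rw [if_neg hj, add_zero]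
  have gre : ∀ (k : ℤ) (P : V4), (((gE ^ k) P) 3).re = (P 3).re := by
    intro k P
    rw [g3]
    simp
  have gim : ∀ (k : ℤ) (P : V4), (((gE ^ k) P) 3).im = (P 3).im + 2 * Real.pi * k := by
    intro k P
    rw [g3]
    simp
  have gder : ∀ (k : ℤ) (P : V4), HasFDerivAt (fun P : V4 => (gE ^ k) P) (gk k) P := by
    intro k P
    have e : (fun P : V4 => (gE ^ k) P) = fun P => gk k P +
        (fun j => if j = 3 then 2 * Real.pi * Complex.I * k else 0 : V4) := by
      funext P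
      exact a1 k P
    rw [e]
    exact (gk k).hasFDerivAt.add_const _
  -- the set
  set s : ℝ → Set V4 := fun R => {P | ‖P‖ < R ∧ |(P 3).re| < 1} with hs
  have hopen : ∀ R, IsOpen (s R) := fun R =>
    (isOpen_lt continuous_norm continuous_const).inter
      (isOpen_lt (continuous_abs.comp (Complex.continuous_re.comp (continuous_apply 3)))
        continuous_const)
  have hconv : ∀ R, Convex ℝ (s R) := by
    intro R
    have h1 : s R = Metric.ball (0 : V4) R ∩ ({P : V4 | (P 3).re < 1} ∩ {P : V4 | -1 < (P 3).re}) := by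
      ext P
      simp only [hs, mem_setOf_eq, mem_inter_iff, Metric.mem_ball, dist_zero_right, abs_lt]
      tauto
    have hl : IsLinearMap ℝ fun P : V4 => (P 3).re :=
      ⟨fun x y => by simp, fun c x => by simp⟩
    rw [h1]
    exact (convex_ball 0 R).inter ((convex_halfSpace_lt hl 1).inter (convex_halfSpace_gt hl (-1)))
  -- the bounds
  have hbound : ∀ (R : ℝ) (k : ℤ) (P : V4), P ∈ s R →
      ‖hC β J ((gE ^ k) P)‖ ≤ (6 * (C * (NJ J + 1)) *
        Real.exp ((NJ J * R + 1) ^ 2 / (4 * (c * (Real.exp (-R) / 2))))) *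
          (1 / ((3 : ℝ) ^ k.natAbs) ^ 2) ∧
      ‖(hD β β' J ((gE ^ k) P)).comp (gk k)‖ ≤ (6 * (C * (NJ J + 1)) *
        Real.exp ((NJ J * R + 1) ^ 2 / (4 * (c * (Real.exp (-R) / 2))))) *
          (1 / ((3 : ℝ) ^ k.natAbs) ^ 2) := by
    intro R k P hP
    set Q := (gE ^ k) P with hQ
    set x : ℝ := (3 : ℝ) ^ k.natAbs with hx
    have hx1 : 1 ≤ x := one_le_pow₀ (by norm_num)
    have hx0 : 0 < x := by linarith
    have hPR : ‖P‖ ≤ R := hP.1.le
    have hN := NJ_nonneg J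
    have hQn : ∀ j : Fin 4, j ≠ 3 → ‖Q j‖ ≤ R * x := by
      intro j hj
      rw [hQ, gj k P j hj]
      calc ‖gk k P j‖ ≤ ‖gk k P‖ := norm_le_pi_norm _ j
        _ ≤ ‖gk k‖ * ‖P‖ := (gk k).le_opNorm P
        _ ≤ x * R := mul_le_mul (a2 k) hPR (norm_nonneg _) hx0.le
        _ = R * x := mul_comm _ _
    have hmon : ‖mon J Q‖ ≤ Real.exp (NJ J * R * x) := by
      have := mon_bound J Q hQn
      rwa [← mul_assoc] at this
    -- the decay
    have him : |(-(Complex.I * Q 3)).im| < 1 := by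
      have : (-(Complex.I * Q 3)).im = -(P 3).re := by
        rw [← gre k P]
        simp [hQ]
      rw [this, abs_neg]
      exact hP.2
    have hre : (-(Complex.I * Q 3)).re = (P 3).im + 2 * Real.pi * k := by
      rw [← gim k P]
      simp [hQ]
    have hcosh : c * (Real.exp (-R) / 2) * x ^ 2 ≤ c * Real.cosh (-(Complex.I * Q 3)).re := by
      rw [hre, mul_assoc]
      refine mul_le_mul_of_nonneg_left (cosh_lower ?_ k) hc.le
      exact ((Complex.abs_im_le_norm _).trans (norm_le_pi_norm P 3)).trans hPR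
    have hdec : Real.exp (-(c * Real.cosh (-(Complex.I * Q 3)).re)) ≤
        Real.exp (-(c * (Real.exp (-R) / 2) * x ^ 2)) := Real.exp_le_exp.2 (by linarith)
    have hb1 : ‖β (-(Complex.I * Q 3))‖ ≤ C * Real.exp (-(c * (Real.exp (-R) / 2) * x ^ 2)) :=
      (hbd _ him).1.trans (mul_le_mul_of_nonneg_left hdec hC0)
    have hb2 : ‖β' (-(Complex.I * Q 3))‖ ≤ C * Real.exp (-(c * (Real.exp (-R) / 2) * x ^ 2)) :=
      (hbd _ him).2.trans (mul_le_mul_of_nonneg_left hdec hC0)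
    set E1 := Real.exp (NJ J * R * x) with hE1
    set E2 := Real.exp (-(c * (Real.exp (-R) / 2) * x ^ 2)) with hE2
    have hE1p : 0 < E1 := Real.exp_pos _
    have hE2p : 0 < E2 := Real.exp_pos _
    have hterm : x * (E1 * E2) ≤
        6 * Real.exp ((NJ J * R + 1) ^ 2 / (4 * (c * (Real.exp (-R) / 2)))) * (1 / x ^ 2) :=
      term_bound (by positivity) hx0
    have hfin : C * (NJ J + 1) * (x * (E1 * E2)) ≤ (6 * (C * (NJ J + 1)) *
        Real.exp ((NJ J * R + 1) ^ 2 / (4 * (c * (Real.exp (-R) / 2))))) * (1 / x ^ 2) := by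
      have h1 : 0 ≤ C * (NJ J + 1) := by positivity
      calc C * (NJ J + 1) * (x * (E1 * E2)) ≤ C * (NJ J + 1) *
            (6 * Real.exp ((NJ J * R + 1) ^ 2 / (4 * (c * (Real.exp (-R) / 2)))) * (1 / x ^ 2)) :=
            mul_le_mul_of_nonneg_left hterm h1
        _ = _ := by ring
    have hm1 : ‖β (-(Complex.I * Q 3)) * mon J Q‖ ≤ C * (E1 * E2) := by
      rw [norm_mul]
      calc ‖β (-(Complex.I * Q 3))‖ * ‖mon J Q‖ ≤ C * E2 * E1 :=
            mul_le_mul hb1 hmon (norm_nonneg _) (by positivity)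
        _ = C * (E1 * E2) := by ring
    have hm2 : ‖-(Complex.I * β' (-(Complex.I * Q 3))) * mon J Q‖ ≤ C * (E1 * E2) := by
      rw [norm_mul, norm_neg, norm_mul, Complex.norm_I, one_mul]
      calc ‖β' (-(Complex.I * Q 3))‖ * ‖mon J Q‖ ≤ C * E2 * E1 :=
            mul_le_mul hb2 hmon (norm_nonneg _) (by positivity)
        _ = C * (E1 * E2) := by ring
    refine ⟨?_, ?_⟩
    · refine le_trans ?_ hfin
      show ‖β (-(Complex.I * Q 3)) * mon J Q‖ ≤ _
      refine hm1.trans ?_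
      have h1 : C * (E1 * E2) * 1 ≤ C * (E1 * E2) * ((NJ J + 1) * x) := by
        refine mul_le_mul_of_nonneg_left ?_ (by positivity)
        nlinarith
      calc C * (E1 * E2) = C * (E1 * E2) * 1 := (mul_one _).symm
        _ ≤ C * (E1 * E2) * ((NJ J + 1) * x) := h1
        _ = C * (NJ J + 1) * (x * (E1 * E2)) := by ring
    · refine le_trans ?_ hfin
      have hDn : ‖hD β β' J Q‖ ≤ C * (E1 * E2) * (NJ J + 1) := by
        unfold hD
        refine (norm_add_le _ _).trans ?_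
        rw [norm_smul, norm_smul]
        have k1 : ‖β (-(Complex.I * Q 3)) * mon J Q‖ * ‖lJ J‖ ≤ C * (E1 * E2) * NJ J :=
          mul_le_mul hm1 (norm_lJ J) (norm_nonneg _) (by positivity)
        have k2 : ‖-(Complex.I * β' (-(Complex.I * Q 3))) * mon J Q‖ * ‖dw‖ ≤
            C * (E1 * E2) * 1 :=
          mul_le_mul hm2 norm_dw (norm_nonneg _) (by positivity)
        linarith
      calc ‖(hD β β' J Q).comp (gk k)‖ ≤ ‖hD β β' J Q‖ * ‖gk k‖ :=
            ContinuousLinearMap.opNorm_comp_le _ _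
        _ ≤ C * (E1 * E2) * (NJ J + 1) * x :=
            mul_le_mul hDn (a2 k) (norm_nonneg _) (by positivity)
        _ = C * (NJ J + 1) * (x * (E1 * E2)) := by ring
  -- derivatives of the terms
  have hderk : ∀ (k : ℤ) (P : V4), |(P 3).re| < 1 →
      HasFDerivAt (fun P => hC β J ((gE ^ k) P)) ((hD β β' J ((gE ^ k) P)).comp (gk k)) P := by
    intro k P hP
    have h1 : |(((gE ^ k) P) 3).re| < 1 := by rw [gre]; exact hP
    exact (hC_hasF hG J h1).comp P (gder k P)
  have hmem : ∀ P : V4, |(P 3).re| < 1 → P ∈ s (‖P‖ + 1) := fun P hP => ⟨by linarith, hP⟩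
  refine ⟨fun P hP => ?_, fun P hP => ?_⟩
  · have hPs := hmem P hP
    have hsum := summable_bd (6 * (C * (NJ J + 1)) *
        Real.exp ((NJ J * (‖P‖ + 1) + 1) ^ 2 / (4 * (c * (Real.exp (-(‖P‖ + 1)) / 2)))))
    refine hasFDerivAt_tsum_of_isPreconnected hsum (hopen (‖P‖ + 1))
      (hconv (‖P‖ + 1)).isPreconnected (fun k Q hQ => hderk k Q hQ.2)
      (fun k Q hQ => (hbound _ k Q hQ).2) hPs ?_ hPs
    exact Summable.of_norm_bounded hsum fun k => (hbound _ k P hPs).1
  · have hPs := hmem P hP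
    have hsum := summable_bd (6 * (C * (NJ J + 1)) *
        Real.exp ((NJ J * (‖P‖ + 1) + 1) ^ 2 / (4 * (c * (Real.exp (-(‖P‖ + 1)) / 2)))))
    have hcont : ContinuousOn (TD β β' J) (s (‖P‖ + 1)) := by
      refine continuousOn_tsum (fun k => ?_) hsum fun k Q hQ => (hbound _ k Q hQ).2
      -- continuity of the terms
      have hg : Continuous fun P : V4 => (gE ^ k) P :=
        continuous_iff_continuousAt.2 fun P => (gder k P).continuousAt
      have hg3 : Continuous fun P : V4 => -(Complex.I * ((gE ^ k) P) 3) :=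
        (continuous_const.mul ((continuous_apply 3).comp hg)).neg
      have hmaps : MapsTo (fun P : V4 => -(Complex.I * ((gE ^ k) P) 3)) (s (‖P‖ + 1))
          {ζ : ℂ | |ζ.im| < 1} := by
        intro Q hQ
        show |(-(Complex.I * ((gE ^ k) Q) 3)).im| < 1
        have : (-(Complex.I * ((gE ^ k) Q) 3)).im = -(Q 3).re := by
          rw [← gre k Q]
          simp
        rw [this, abs_neg]
        exact hQ.2
      have hβ : ContinuousOn β {ζ : ℂ | |ζ.im| < 1} := fun ζ hζ =>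
        (hG.der ζ hζ).continuousAt.continuousWithinAt
      have hmonc : Continuous fun P : V4 => mon J ((gE ^ k) P) :=
        (continuous_iff_continuousAt.2 fun P => (mon_hasF J P).continuousAt).comp hg
      have t1 : ContinuousOn (fun P : V4 => β (-(Complex.I * ((gE ^ k) P) 3)) *
          mon J ((gE ^ k) P)) (s (‖P‖ + 1)) :=
        (hβ.comp hg3.continuousOn hmaps).mul hmonc.continuousOn
      have t2 : ContinuousOn (fun P : V4 => -(Complex.I * β' (-(Complex.I * ((gE ^ k) P) 3))) *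
          mon J ((gE ^ k) P)) (s (‖P‖ + 1)) :=
        ((continuousOn_const.mul (hG.cont.comp hg3.continuousOn hmaps)).neg).mul
          hmonc.continuousOn
      have t3 : ContinuousOn (fun P : V4 => hD β β' J ((gE ^ k) P)) (s (‖P‖ + 1)) :=
        (t1.smul continuousOn_const).add (t2.smul continuousOn_const)
      exact t3.clm_comp continuousOn_const
    exact ((hcont P hPs).continuousAt ((hopen _).mem_nhds hPs)).continuousWithinAt

end Pool.Agent.Helper80.AB
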