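import Pool.Agent.Helper15.AB.GoalsD

/-!
# Project AB (MP_1ef41b_an), packet AVC: averages commute with circle averages
-/

set_option autoImplicit false

open MeasureTheory Set Filter Topology

noncomputable section

namespace Pool.Agent.Helper80.AB

open Pool.Agent.Helper24.AB Pool.Agent.Helper15.AB

/-- continuity of parametric integrals -/
theorem cont_param {X : Type} [TopologicalSpace X] (f : X → ℝ → ℝ)
    (hf : Continuous fun v : X × ℝ => f v.1 v.2) (a b : ℝ) :
    Continuous fun x => ∫ t in a..b, f x t :=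
  intervalIntegral.continuous_parametric_intervalIntegral_of_continuous' (f := f) hf a b

/-- Fubini for interval integrals of continuous functions -/
theorem swap_cont (f : ℝ → ℝ → ℝ) (hf : Continuous fun v : ℝ × ℝ => f v.1 v.2) (a b c d : ℝ)
    (hab : a ≤ b) (hcd : c ≤ d) :
    ∫ x in a..b, ∫ y in c..d, f x y = ∫ y in c..d, ∫ x in a..b, f x y := by
  simp only [intervalIntegral.integral_of_le hab, intervalIntegral.integral_of_le hcd]
  refine integral_integral_swap ?_
  rw [Measure.prod_restrict]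
  have h1 : IntegrableOn (fun v : ℝ × ℝ => f v.1 v.2) (Icc a b ×ˢ Icc c d)
      (volume.prod volume) := by
    rw [← Measure.volume_eq_prod]
    exact hf.continuousOn.integrableOn_compact (isCompact_Icc.prod isCompact_Icc)
  exact h1.mono_set (prod_mono Ioc_subset_Icc_self Ioc_subset_Icc_self)

theorem avc : S_AVC := by
  intro F c r hr hF
  have h2π : (0 : ℝ) ≤ 2 * Real.pi := by positivity
  -- the function on the circle
  have hG : Continuous fun v : ℝ × ℝ × ℝ × ℝ => F (circleMap c r v.1) v.2.1 v.2.2.1 v.2.2.2 := by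
    have h1 : Continuous fun v : ℝ × ℝ × ℝ × ℝ => (circleMap c r v.1, v.2.1, v.2.2.1, v.2.2.2) := by
      have := continuous_circleMap c r
      fun_prop
    exact hF.comp_continuous h1 fun v => ⟨circleMap_mem_closedBall c hr v.1, mem_univ _⟩
  refine ⟨?_, ?_, ?_⟩
  · -- continuity in the three variables
    show Continuous fun v : ℝ × ℝ × ℝ =>
      (2 * Real.pi)⁻¹ • ∫ θ in (0 : ℝ)..(2 * Real.pi), F (circleMap c r θ) v.1 v.2.1 v.2.2
    have k0 : Continuous fun v : ℝ × ℝ × ℝ =>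
        ∫ θ in (0 : ℝ)..(2 * Real.pi), F (circleMap c r θ) v.1 v.2.1 v.2.2 :=
      cont_param (fun (v : ℝ × ℝ × ℝ) θ => F (circleMap c r θ) v.1 v.2.1 v.2.2)
        (hG.comp (f := fun p : (ℝ × ℝ × ℝ) × ℝ => (p.2, p.1.1, p.1.2.1, p.1.2.2))
          (by fun_prop)) _ _
    exact k0.const_smul ((2 * Real.pi)⁻¹ : ℝ)
  · -- continuity of the average
    rw [continuousOn_iff_continuous_domRestrict]
    show Continuous fun w : Metric.closedBall c r => av (F w)
    have hF' : Continuous fun v : (Metric.closedBall c r) × ℝ × ℝ × ℝ =>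
        F v.1 v.2.1 v.2.2.1 v.2.2.2 := by
      have h1 : Continuous fun v : (Metric.closedBall c r) × ℝ × ℝ × ℝ =>
          ((v.1 : ℂ), v.2.1, v.2.2.1, v.2.2.2) := by fun_prop
      exact hF.comp_continuous h1 fun v => ⟨v.1.2, mem_univ _⟩
    have k1 : Continuous fun v : (Metric.closedBall c r) × ℝ × ℝ =>
        ∫ u in (0 : ℝ)..(2 * Real.pi), F v.1 v.2.1 v.2.2 u :=
      cont_param (fun (v : (Metric.closedBall c r) × ℝ × ℝ) u => F v.1 v.2.1 v.2.2 u)
        (hF'.comp (f := fun p : ((Metric.closedBall c r) × ℝ × ℝ) × ℝ =>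
          (p.1.1, p.1.2.1, p.1.2.2, p.2)) (by fun_prop)) _ _
    have k2 : Continuous fun v : (Metric.closedBall c r) × ℝ =>
        ∫ y in (0 : ℝ)..(2 * Real.pi), ∫ u in (0 : ℝ)..(2 * Real.pi), F v.1 v.2 y u :=
      cont_param (fun (v : (Metric.closedBall c r) × ℝ) y =>
        ∫ u in (0 : ℝ)..(2 * Real.pi), F v.1 v.2 y u)
        (k1.comp (f := fun p : ((Metric.closedBall c r) × ℝ) × ℝ =>
          (p.1.1, p.1.2, p.2)) (by fun_prop)) _ _
    have k3 : Continuous fun w : Metric.closedBall c r =>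
        ∫ x in (0 : ℝ)..(2 * Real.pi), ∫ y in (0 : ℝ)..(2 * Real.pi),
          ∫ u in (0 : ℝ)..(2 * Real.pi), F w x y u :=
      cont_param (fun (w : Metric.closedBall c r) x =>
        ∫ y in (0 : ℝ)..(2 * Real.pi), ∫ u in (0 : ℝ)..(2 * Real.pi), F w x y u) k2 _ _
    unfold av
    exact k3.const_mul _
  · -- Fubini
    unfold av Real.circleAverage
    simp only [smul_eq_mul, intervalIntegral.integral_const_mul]
    have s1 : ∀ x y, ∫ u in (0 : ℝ)..(2 * Real.pi), ∫ θ in (0 : ℝ)..(2 * Real.pi),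
          F (circleMap c r θ) x y u =
        ∫ θ in (0 : ℝ)..(2 * Real.pi), ∫ u in (0 : ℝ)..(2 * Real.pi),
          F (circleMap c r θ) x y u := by
      intro x y
      refine swap_cont (fun u θ => F (circleMap c r θ) x y u) ?_ _ _ _ _ h2π h2π
      exact hG.comp (f := fun p : ℝ × ℝ => (p.2, x, y, p.1)) (by fun_prop)
    have k1 : Continuous fun v : ℝ × ℝ × ℝ =>
        ∫ u in (0 : ℝ)..(2 * Real.pi), F (circleMap c r v.1) v.2.1 v.2.2 u :=
      cont_param (fun (v : ℝ × ℝ × ℝ) u => F (circleMap c r v.1) v.2.1 v.2.2 u)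
        (hG.comp (f := fun p : (ℝ × ℝ × ℝ) × ℝ => (p.1.1, p.1.2.1, p.1.2.2, p.2))
          (by fun_prop)) _ _
    have s2 : ∀ x, ∫ y in (0 : ℝ)..(2 * Real.pi), ∫ θ in (0 : ℝ)..(2 * Real.pi),
          ∫ u in (0 : ℝ)..(2 * Real.pi), F (circleMap c r θ) x y u =
        ∫ θ in (0 : ℝ)..(2 * Real.pi), ∫ y in (0 : ℝ)..(2 * Real.pi),
          ∫ u in (0 : ℝ)..(2 * Real.pi), F (circleMap c r θ) x y u := by
      intro x
      refine swap_cont (fun y θ => ∫ u in (0 : ℝ)..(2 * Real.pi), F (circleMap c r θ) x y u)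
        ?_ _ _ _ _ h2π h2π
      exact k1.comp (f := fun p : ℝ × ℝ => (p.2, x, p.1)) (by fun_prop)
    have k2 : Continuous fun v : ℝ × ℝ => ∫ y in (0 : ℝ)..(2 * Real.pi),
        ∫ u in (0 : ℝ)..(2 * Real.pi), F (circleMap c r v.1) v.2 y u :=
      cont_param (fun (v : ℝ × ℝ) y => ∫ u in (0 : ℝ)..(2 * Real.pi),
        F (circleMap c r v.1) v.2 y u)
        (k1.comp (f := fun p : (ℝ × ℝ) × ℝ => (p.1.1, p.1.2, p.2)) (by fun_prop)) _ _
    have s3 : ∫ x in (0 : ℝ)..(2 * Real.pi), ∫ θ in (0 : ℝ)..(2 * Real.pi),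
          ∫ y in (0 : ℝ)..(2 * Real.pi), ∫ u in (0 : ℝ)..(2 * Real.pi),
            F (circleMap c r θ) x y u =
        ∫ θ in (0 : ℝ)..(2 * Real.pi), ∫ x in (0 : ℝ)..(2 * Real.pi),
          ∫ y in (0 : ℝ)..(2 * Real.pi), ∫ u in (0 : ℝ)..(2 * Real.pi),
            F (circleMap c r θ) x y u := by
      refine swap_cont (fun x θ => ∫ y in (0 : ℝ)..(2 * Real.pi),
        ∫ u in (0 : ℝ)..(2 * Real.pi), F (circleMap c r θ) x y u) ?_ _ _ _ _ h2π h2π
      exact k2.comp (f := fun p : ℝ × ℝ => (p.2, p.1)) (by fun_prop)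
    simp only [s1, s2, s3]
    ring

end Pool.Agent.Helper80.AB
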