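import Pool.Agent.Helper15.AB.GoalsD

/-!
# Project AB (MP_1ef41b_an), packet TOPX: the explicit formulas on the slices `xm = x0 = 0`
-/

set_option autoImplicit false

open MeasureTheory Set Filter Topology
open scoped ContDiff

noncomputable section

namespace Pool.Agent.Helper80.AB

open Pool.Agent.Helper24.AB Pool.Agent.Helper15.AB

theorem sqrt5_pos : 0 < Real.sqrt 5 := Real.sqrt_pos.2 (by norm_num)

theorem ph_sub : ph - ph' = Real.sqrt 5 := by
  unfold ph ph'
  ring

theorem lam_pos : 0 < lam := by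
  unfold lam
  have := sqrt5_pos
  positivity

theorem exp_kap : Real.exp (kap * (2 * Real.pi)) = lam := by
  unfold kap
  rw [div_mul_cancel₀ _ (by positivity), Real.exp_log lam_pos]

theorem isOpen_strip (b : ℝ) : IsOpen (strip b) :=
  isOpen_lt (continuous_abs.comp Complex.continuous_re) continuous_const

theorem xp_zP (z : ℂ) (x y u : ℝ) (w : ℂ) : xp (zP z x y u w) = z.re := by
  have h1 : (zP z x y u w 0).re = ph * z.re := by
    simp [zP]
  have h2 : (zP z x y u w 1).re = z.re := by
    simp [zP]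
  unfold xp
  rw [h1, h2, ← sub_mul, ph_sub, mul_div_assoc, mul_comm, div_mul_cancel₀]
  exact sqrt5_pos.ne'

theorem xm_zP (z : ℂ) (x y u : ℝ) (w : ℂ) : xm (zP z x y u w) = 0 := by
  have h1 : (zP z x y u w 0).re = ph * z.re := by
    simp [zP]
  have h2 : (zP z x y u w 1).re = z.re := by
    simp [zP]
  unfold xm
  rw [h1, h2, sub_self, zero_div]

theorem x0_zP (z : ℂ) (x y u : ℝ) (w : ℂ) : x0 (zP z x y u w) = 0 := by
  unfold x0
  simp [zP]

theorem zP_three (z : ℂ) (x y u : ℝ) (w : ℂ) : zP z x y u w 3 = w := rfl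

theorem zP_add (z : ℂ) (x y u : ℝ) (w : ℂ) (τ : ℝ) :
    zP z x y u w + τ • eP = zP (z + τ) x y u w := by
  funext i
  fin_cases i <;> simp [zP, eP] <;> ring

theorem rfun_zP {a A : ℝ} {s : ℝ → ℝ} (hs : IsProfile a A s) (p : ℂ → ℝ) (z : ℂ) (x y u : ℝ)
    {w : ℂ} (hw : w ∈ strip (a / 2)) :
    rfun a A s p (zP z x y u w) = (a ^ 2 - w.re ^ 2) *
      (((Real.exp (-(kap * w.im)) * (z.re + p w) - A) / s w.re) ^ 2 - 1) := by
  have ha := hs.a_pos
  have hw' : |w.re| < a / 2 := hw
  have h1 : |w.re| < 19 / 20 * a := by linarith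
  have hre := abs_lt.1 hw'
  have h2 : 0 < a ^ 2 - w.re ^ 2 := by nlinarith [hre.1, hre.2]
  have h3 : 0 < s w.re := hs.pos w.re ⟨by linarith [hre.1], by linarith [hre.2]⟩
  unfold rfun ypf ymf Atl
  rw [xp_zP, xm_zP, x0_zP, zP_three, if_pos h1]
  field_simp
  ring

theorem mid_eq {a A : ℝ} {s : ℝ → ℝ} (hs : IsProfile a A s) {w : ℂ} (hw : w ∈ strip (a / 2)) :
    s w.re = 2 * A * Real.cos (kap * w.re) - A := hs.mid w.re (le_of_lt hw)

theorem ypf_eq {a A : ℝ} {s : ℝ → ℝ} (hs : IsProfile a A s) (p : ℂ → ℝ) {w : ℂ}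
    (hw : w ∈ strip (a / 2)) (v : ℝ) :
    Real.exp (-(kap * w.im)) * (qf A p w - v + p w) - A =
      s w.re - Real.exp (-(kap * w.im)) * v := by
  have h1 : Real.exp (-(kap * w.im)) * Real.exp (kap * w.im) = 1 := by
    rw [← Real.exp_add, neg_add_cancel, Real.exp_zero]
  rw [mid_eq hs hw]
  unfold qf
  linear_combination (2 * A * Real.cos (kap * w.re)) * h1

/-! ## derivatives of the explicit harmonic function -/

theorem prod_hasF {φ ψ : ℝ → ℝ} {φ' ψ' : ℝ} {w : ℂ} (h1 : HasDerivAt φ φ' w.im)
    (h2 : HasDerivAt ψ ψ' w.re) :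
    HasFDerivAt (fun w : ℂ => φ w.im * ψ w.re)
      (φ w.im • (ψ' • Complex.reCLM) + ψ w.re • (φ' • Complex.imCLM)) w := by
  have h3 : HasFDerivAt (fun w : ℂ => φ w.im) (φ' • Complex.imCLM) w :=
    h1.comp_hasFDerivAt w Complex.imCLM.hasFDerivAt
  have h4 : HasFDerivAt (fun w : ℂ => ψ w.re) (ψ' • Complex.reCLM) w :=
    h2.comp_hasFDerivAt w Complex.reCLM.hasFDerivAt
  exact h3.mul h4

theorem dS_prod {φ ψ ψ' : ℝ → ℝ} (h1 : Differentiable ℝ φ)
    (h2 : ∀ x, HasDerivAt ψ (ψ' x) x) :
    dS (fun w : ℂ => φ w.im * ψ w.re) = fun w => φ w.im * ψ' w.re := by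
  funext w
  unfold dS
  rw [(prod_hasF (h1 w.im).hasDerivAt (h2 w.re)).fderiv]
  simp

theorem dT_prod {φ ψ φ' : ℝ → ℝ} (h1 : ∀ x, HasDerivAt φ (φ' x) x)
    (h2 : Differentiable ℝ ψ) :
    dT (fun w : ℂ => φ w.im * ψ w.re) = fun w => φ' w.im * ψ w.re := by
  funext w
  unfold dT
  rw [(prod_hasF (h1 w.im) (h2 w.re).hasDerivAt).fderiv]
  simp
  ring

/-- the harmonic function -/
def hh (w : ℂ) : ℝ := Real.exp (kap * w.im) * Real.cos (kap * w.re)

theorem exp_der (x : ℝ) : HasDerivAt (fun x => Real.exp (kap * x)) (kap * Real.exp (kap * x)) x := by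
  have := ((hasDerivAt_id x).const_mul kap).exp
  simp only [id_eq, mul_one] at this
  rw [mul_comm] at this
  exact this

theorem cos_der (x : ℝ) :
    HasDerivAt (fun x => Real.cos (kap * x)) (-kap * Real.sin (kap * x)) x := by
  have := ((hasDerivAt_id x).const_mul kap).cos
  simp only [id_eq, mul_one] at this
  have e : -kap * Real.sin (kap * x) = -Real.sin (kap * x) * kap := by ring
  rw [e]
  exact this

theorem sin_der (x : ℝ) :
    HasDerivAt (fun x => -kap * Real.sin (kap * x)) (-kap ^ 2 * Real.cos (kap * x)) x := by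
  have := (((hasDerivAt_id x).const_mul kap).sin).const_mul (-kap)
  simp only [id_eq, mul_one] at this
  have e : -kap ^ 2 * Real.cos (kap * x) = -kap * (Real.cos (kap * x) * kap) := by ring
  rw [e]
  exact this

theorem contDiff_hh : ContDiff ℝ ∞ hh := by
  have h1 : ContDiff ℝ ∞ (fun w : ℂ => w.im) := Complex.imCLM.contDiff
  have h2 : ContDiff ℝ ∞ (fun w : ℂ => w.re) := Complex.reCLM.contDiff
  unfold hh
  exact (Real.contDiff_exp.comp (contDiff_const.mul h1)).mul
    (Real.contDiff_cos.comp (contDiff_const.mul h2))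

theorem dSS_hh : dS (dS hh) = fun w => Real.exp (kap * w.im) * (-kap ^ 2 * Real.cos (kap * w.re)) := by
  have h0 : Differentiable ℝ fun x => Real.exp (kap * x) := fun x => (exp_der x).differentiableAt
  have h1 : dS hh = fun w : ℂ => (fun x => Real.exp (kap * x)) w.im *
      (fun x => -kap * Real.sin (kap * x)) w.re := dS_prod h0 cos_der
  rw [h1]
  exact dS_prod h0 sin_der

theorem dTT_hh : dT (dT hh) = fun w => kap * (kap * Real.exp (kap * w.im)) * Real.cos (kap * w.re) := by
  have h0 : Differentiable ℝ fun x => Real.cos (kap * x) := fun x => (cos_der x).differentiableAt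
  have h1 : dT hh = fun w : ℂ => (fun x => kap * Real.exp (kap * x)) w.im *
      (fun x => Real.cos (kap * x)) w.re := dT_prod exp_der h0
  rw [h1]
  exact dT_prod (fun x => (exp_der x).const_mul kap) h0

theorem lap_hh (w : ℂ) : lapC hh w = 0 := by
  unfold lapC
  rw [dSS_hh, dTT_hh]
  ring

/-- a second directional derivative of `c * f - p` -/
theorem second {c : ℝ} {f p : ℂ → ℝ} {S : Set ℂ} (hS : IsOpen S) (hf : ContDiff ℝ ∞ f)
    (hp : ContDiffOn ℝ ∞ p S) (v : ℂ) {w : ℂ} (hw : w ∈ S) :
    fderiv ℝ (fun w => fderiv ℝ (fun w => c * f w - p w) w v) w v =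
      c * fderiv ℝ (fun w => fderiv ℝ f w v) w v - fderiv ℝ (fun w => fderiv ℝ p w v) w v := by
  have hfd : ∀ w, DifferentiableAt ℝ f w := fun w => (hf.differentiable (by simp)) w
  have hpd : ∀ w ∈ S, DifferentiableAt ℝ p w := fun w hw =>
    ((hp.contDiffAt (hS.mem_nhds hw)).differentiableAt (by simp))
  have h1 : (fun w => fderiv ℝ (fun w => c * f w - p w) w v) =ᶠ[𝓝 w]
      fun w => c * fderiv ℝ f w v - fderiv ℝ p w v := by
    filter_upwards [hS.mem_nhds hw] with w' hw'
    rw [fderiv_fun_sub ((hfd w').const_mul c) (hpd w' hw'), fderiv_const_mul (hfd w')]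
    rfl
  have h2 : DifferentiableAt ℝ (fun w => fderiv ℝ f w v) w := by
    have : ContDiff ℝ ∞ (fun w => fderiv ℝ f w v) :=
      (hf.fderiv_right (m := ∞) (by simp)).clm_apply contDiff_const
    exact (this.differentiable (by simp)) w
  have h3 : DifferentiableAt ℝ (fun w => fderiv ℝ p w v) w := by
    have : ContDiffOn ℝ ∞ (fun w => fderiv ℝ p w v) S :=
      (hp.fderiv_of_isOpen hS (by simp)).clm_apply contDiffOn_const
    exact (this.contDiffAt (hS.mem_nhds hw)).differentiableAt (by simp)
  rw [h1.fderiv_eq, fderiv_fun_sub (h2.const_mul c) h3, fderiv_const_mul h2]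
  rfl

theorem topx : S_TOPX := by
  intro η a A δ₀ ρ₀ s p B hs hp hT
  have ha := hs.a_pos
  have hsub : strip (a / 2) ⊆ strip (3 * a / 2) := fun w hw => by
    have : |w.re| < a / 2 := hw
    show |w.re| < 3 * a / 2
    linarith
  have hIoo : ∀ w ∈ strip (a / 2), w.re ∈ Ioo (-a) a := fun w hw => by
    have h1 := abs_lt.1 (show |w.re| < a / 2 from hw)
    exact ⟨by linarith [h1.1], by linarith [h1.2]⟩
  have hspos : ∀ w ∈ strip (a / 2), 0 < s w.re := fun w hw => hs.pos _ (hIoo w hw)
  have hσ : ∀ w ∈ strip (a / 2), 0 < a ^ 2 - w.re ^ 2 := fun w hw => by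
    have h1 := hIoo w hw
    nlinarith [h1.1, h1.2]
  refine ⟨?_, ?_, ?_, ?_, ?_, ?_, ?_⟩
  · -- inner points
    intro w hw z x y u h1 h2
    refine ⟨hsub hw, ?_⟩
    rw [rfun_zP hs p z x y u hw]
    obtain ⟨v, hv⟩ : ∃ v, z.re = qf A p w - v := ⟨qf A p w - z.re, by ring⟩
    rw [hv, ypf_eq hs p hw v]
    have hv0 : 0 < v := by linarith
    have hv1 : v < mf s w := by linarith
    have he : 0 < Real.exp (-(kap * w.im)) := Real.exp_pos _
    have h3 : Real.exp (-(kap * w.im)) * v < 2 * s w.re := by
      have h4 : Real.exp (-(kap * w.im)) * mf s w = 2 * s w.re := by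
        have h5 : Real.exp (-(kap * w.im)) * Real.exp (kap * w.im) = 1 := by
          rw [← Real.exp_add, neg_add_cancel, Real.exp_zero]
        unfold mf
        linear_combination (2 * s w.re) * h5
      calc Real.exp (-(kap * w.im)) * v < Real.exp (-(kap * w.im)) * mf s w :=
            mul_lt_mul_of_pos_left hv1 he
        _ = 2 * s w.re := h4
    have h6 : 0 < Real.exp (-(kap * w.im)) * v := mul_pos he hv0
    have hsw := hspos w hw
    have h7 : ((s w.re - Real.exp (-(kap * w.im)) * v) / s w.re) ^ 2 < 1 := by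
      rw [div_pow, div_lt_one (by positivity)]
      nlinarith
    exact mul_neg_of_pos_of_neg (hσ w hw) (by linarith)
  · -- the top
    intro w hw z x y u hz
    have hsw := hspos w hw
    have e1 : Real.exp (-(kap * w.im)) * (z.re + p w) - A = s w.re := by
      have := ypf_eq hs p hw 0
      rw [mul_zero, sub_zero, sub_zero] at this
      rw [hz, this]
    refine ⟨?_, ?_⟩
    · rw [rfun_zP hs p z x y u hw, e1, div_self hsw.ne']
      ring
    · have hopen : IsOpen {P : V4 | |(P 3).re| < 3 * a / 2} :=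
        isOpen_lt (continuous_abs.comp (Complex.continuous_re.comp (continuous_apply 3)))
          continuous_const
      have hmem : zP z x y u w ∈ {P : V4 | |(P 3).re| < 3 * a / 2} := hsub hw
      have hdiff : DifferentiableAt ℝ (rfun a A s p) (zP z x y u w) :=
        (hT.smooth.contDiffAt (hopen.mem_nhds hmem)).differentiableAt (by simp)
      -- derivative along the line
      have hline : HasDerivAt (fun τ : ℝ => zP z x y u w + τ • eP) eP 0 := by
        have h1 := ((hasDerivAt_id (0 : ℝ)).smul_const eP).const_add (zP z x y u w)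
        simpa using h1
      have hcomp : HasDerivAt (fun τ : ℝ => rfun a A s p (zP z x y u w + τ • eP))
          (fderiv ℝ (rfun a A s p) (zP z x y u w) eP) 0 := by
        have h1 : HasFDerivAt (rfun a A s p) (fderiv ℝ (rfun a A s p) (zP z x y u w))
            (zP z x y u w + (0 : ℝ) • eP) := by
          rw [zero_smul, add_zero]
          exact hdiff.hasFDerivAt
        exact h1.comp_hasDerivAt (0 : ℝ) hline
      have hexp : HasDerivAt (fun τ : ℝ => rfun a A s p (zP z x y u w + τ • eP))
          ((a ^ 2 - w.re ^ 2) * (2 * (Real.exp (-(kap * w.im)) / s w.re))) 0 := by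
        have h2 : (fun τ : ℝ => rfun a A s p (zP z x y u w + τ • eP)) = fun τ : ℝ =>
            (a ^ 2 - w.re ^ 2) * ((1 + τ * (Real.exp (-(kap * w.im)) / s w.re)) ^ 2 - 1) := by
          funext τ
          rw [zP_add, rfun_zP hs p _ x y u hw]
          have h3 : (z + (τ : ℂ)).re = z.re + τ := by simp
          have h4 : (Real.exp (-(kap * w.im)) * (z.re + τ + p w) - A) / s w.re =
              1 + τ * (Real.exp (-(kap * w.im)) / s w.re) := by
            have h5 : Real.exp (-(kap * w.im)) * (z.re + τ + p w) - A =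
                s w.re + τ * Real.exp (-(kap * w.im)) := by
              linear_combination e1
            rw [h5]
            field_simp
          rw [h3, h4]
        rw [h2]
        have h6 : HasDerivAt (fun τ : ℝ => 1 + τ * (Real.exp (-(kap * w.im)) / s w.re))
            (Real.exp (-(kap * w.im)) / s w.re) 0 := by
          have := ((hasDerivAt_id (0 : ℝ)).mul_const
            (Real.exp (-(kap * w.im)) / s w.re)).const_add 1
          simpa using this
        have h7 := ((h6.pow 2).sub_const 1).const_mul (a ^ 2 - w.re ^ 2)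
        have e8 : (a ^ 2 - w.re ^ 2) * (2 * (Real.exp (-(kap * w.im)) / s w.re)) =
            (a ^ 2 - w.re ^ 2) * (((2 : ℕ) : ℝ) * (1 + 0 * (Real.exp (-(kap * w.im)) / s w.re)) ^
              (2 - 1) * (Real.exp (-(kap * w.im)) / s w.re)) := by
          norm_num
        rw [e8]
        exact h7
      rw [hcomp.unique hexp]
      have := hσ w hw
      positivity
  · -- the behaviour under the translation
    intro w _
    unfold qf
    rw [hp.p1 w]
    have h1 : (w + 2 * Real.pi * Complex.I).im = w.im + 2 * Real.pi := by simp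
    have h2 : (w + 2 * Real.pi * Complex.I).re = w.re := by simp
    rw [h1, h2, mul_add, Real.exp_add, exp_kap]
    ring
  · -- smoothness
    have h1 : ContDiffOn ℝ ∞ (fun w => 2 * A * hh w - p w) (strip (a / 2)) :=
      (contDiff_const.mul contDiff_hh).contDiffOn.sub (hp.smooth.mono hsub)
    exact h1
  · intro w hw
    have := hspos w hw
    unfold mf
    positivity
  · have h1 : ContinuousOn (fun w : ℂ => s w.re) (strip (a / 2)) :=
      hs.smooth.continuousOn.comp Complex.continuous_re.continuousOn fun w hw => hIoo w hw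
    have h2 : Continuous fun w : ℂ => Real.exp (kap * w.im) :=
      Real.continuous_exp.comp (continuous_const.mul Complex.continuous_im)
    exact (continuousOn_const.mul h1).mul h2.continuousOn
  · intro w hw
    have e1 := second (c := 2 * A) (isOpen_strip (3 * a / 2)) contDiff_hh hp.smooth 1 (hsub hw)
    have e2 := second (c := 2 * A) (isOpen_strip (3 * a / 2)) contDiff_hh hp.smooth Complex.I
      (hsub hw)
    have e3 : lapC (qf A p) w = 2 * A * lapC hh w - lapC p w := by
      unfold lapC dS dT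
      have e4 : qf A p = fun w => 2 * A * hh w - p w := rfl
      rw [e4, e1, e2]
      ring
    rw [e3, lap_hh]
    ring

end Pool.Agent.Helper80.AB
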