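import Pool.Agent.Helper24.AB.PHI.Goals

/-!
# Project AB (MP_1ef41b_an), module PHI, packet PA: lower bounds for `-ΔH⁰`
-/

set_option autoImplicit false

open MeasureTheory Set Filter Topology
open scoped ContDiff

noncomputable section

namespace Pool.Agent.Helper80.AB

open Pool.Agent.Helper24.AB

theorem kap_pos' : 0 < kap := by
  unfold kap lam
  have : 0 ≤ Real.sqrt 5 := Real.sqrt_nonneg 5
  exact div_pos (Real.log_pos (by linarith)) (by positivity)

theorem kap_le : kap ≤ 1 / 3 := by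
  unfold kap
  have h5 : Real.sqrt 5 ≤ 3 := by
    rw [show (3 : ℝ) = Real.sqrt (3 ^ 2) by rw [Real.sqrt_sq (by norm_num)]]
    exact Real.sqrt_le_sqrt (by norm_num)
  have h0 : 0 < lam := by
    unfold lam
    positivity
  have h1 : Real.log lam ≤ 2 := by
    have := Real.log_le_sub_one_of_pos h0
    have h2 : lam ≤ 3 := by
      unfold lam
      linarith
    linarith
  rw [div_le_iff₀ (by positivity)]
  nlinarith [Real.pi_gt_three]

/-- derivatives from the right -/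
theorem deriv_eq_right {f g : ℝ → ℝ} {x b : ℝ} (hxb : x < b) (hf : DifferentiableAt ℝ f x)
    (hg : DifferentiableAt ℝ g x) (h : ∀ y, x ≤ y → y < b → f y = g y) :
    deriv f x = deriv g x := by
  have h1 : HasDerivWithinAt f (deriv f x) (Ici x) x := hf.hasDerivAt.hasDerivWithinAt
  have h2 : HasDerivWithinAt g (deriv g x) (Ici x) x := hg.hasDerivAt.hasDerivWithinAt
  have h3 : HasDerivWithinAt f (deriv g x) (Ici x) x := by
    refine h2.congr_of_eventuallyEq ?_ (h x le_rfl hxb)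
    filter_upwards [self_mem_nhdsWithin, mem_nhdsWithin_of_mem_nhds (Iio_mem_nhds hxb)]
      with y hy hyb using h y hy hyb
  exact (uniqueDiffWithinAt_Ici x).eq_deriv _ h1 h3

/-- the model at the edge -/
def s1 (a A x : ℝ) : ℝ := 2 * A * Real.sqrt (a ^ 2 - x ^ 2) / a

theorem s1_deriv {a A x : ℝ} (ha : 0 < a) (hx : 0 < a ^ 2 - x ^ 2) :
    HasDerivAt (s1 a A) (-(2 * A * x / (a * Real.sqrt (a ^ 2 - x ^ 2)))) x := by
  have h1 : HasDerivAt (fun x : ℝ => a ^ 2 - x ^ 2) (-(2 * x)) x := by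
    have := ((hasDerivAt_id x).pow 2).const_sub (a ^ 2)
    refine this.congr_deriv ?_
    simp
  have h2 := ((h1.sqrt hx.ne').const_mul (2 * A)).div_const a
  unfold s1
  refine h2.congr_deriv ?_
  have h3 : 0 < Real.sqrt (a ^ 2 - x ^ 2) := Real.sqrt_pos.2 hx
  field_simp

theorem s1_deriv2 {a A x : ℝ} (ha : 0 < a) (hx : 0 < a ^ 2 - x ^ 2) :
    HasDerivAt (deriv (s1 a A)) (-(2 * A * a / (Real.sqrt (a ^ 2 - x ^ 2)) ^ 3)) x := by
  have hop : IsOpen {y : ℝ | 0 < a ^ 2 - y ^ 2} :=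
    isOpen_lt continuous_const (continuous_const.sub (continuous_pow 2))
  have h0 : deriv (s1 a A) =ᶠ[𝓝 x] fun x => -(2 * A * x / (a * Real.sqrt (a ^ 2 - x ^ 2))) := by
    filter_upwards [hop.mem_nhds hx] with y hy using (s1_deriv ha hy).deriv
  have h1 : HasDerivAt (fun x : ℝ => a ^ 2 - x ^ 2) (-(2 * x)) x := by
    have := ((hasDerivAt_id x).pow 2).const_sub (a ^ 2)
    refine this.congr_deriv ?_
    simp
  have h2 := (h1.sqrt hx.ne').const_mul a
  have h3 : 0 < Real.sqrt (a ^ 2 - x ^ 2) := Real.sqrt_pos.2 hx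
  have h4 := (((hasDerivAt_id x).const_mul (2 * A)).div h2 (by positivity)).neg
  refine HasDerivAt.congr_of_eventuallyEq ?_ h0
  refine h4.congr_deriv ?_
  have h5 : Real.sqrt (a ^ 2 - x ^ 2) ^ 2 = a ^ 2 - x ^ 2 := Real.sq_sqrt hx.le
  set q := Real.sqrt (a ^ 2 - x ^ 2) with hq
  have h6 : x ^ 2 = a ^ 2 - q ^ 2 := by linarith
  simp only [id]
  field_simp
  ring_nf
  rw [h6]
  ring

theorem kone_edge_pos {a A : ℝ} {s : ℝ → ℝ} (hp : IsProfile a A s) {x : ℝ}
    (h1 : 19 / 20 * a ≤ x) (h2 : x < a) :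
    deriv (deriv s) x = -(2 * A * a / (Real.sqrt (a ^ 2 - x ^ 2)) ^ 3) := by
  have ha := hp.a_pos
  have hpos : ∀ y, x ≤ y → y < a → 0 < a ^ 2 - y ^ 2 := by
    intro y hy hya
    nlinarith
  have hdiff : ∀ y, x ≤ y → y < a → DifferentiableAt ℝ s y := by
    intro y hy hya
    refine (hp.smooth.contDiffAt (Ioo_mem_nhds ?_ hya)).differentiableAt (by simp)
    linarith
  have hdiff2 : DifferentiableAt ℝ (deriv s) x := by
    have h3 : ContDiffAt ℝ ∞ s x := hp.smooth.contDiffAt (Ioo_mem_nhds (by linarith) h2)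
    have h4 : ContDiffOn ℝ ∞ (deriv s) (Ioo (-a) a) :=
      hp.smooth.deriv_of_isOpen isOpen_Ioo (by simp)
    exact (h4.contDiffAt (Ioo_mem_nhds (by linarith) h2)).differentiableAt (by simp)
  have e1 : ∀ y, x ≤ y → y < a → deriv s y = deriv (s1 a A) y := by
    intro y hy hya
    refine deriv_eq_right hya (hdiff y hy hya) (s1_deriv ha (hpos y hy hya)).differentiableAt ?_
    intro z hz hza
    have hz0 : |z| = z := abs_of_nonneg (by linarith)
    exact hp.edge z (by rw [hz0]; linarith) (by rw [hz0]; exact hza)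
  rw [deriv_eq_right h2 hdiff2 (s1_deriv2 ha (hpos x le_rfl h2)).differentiableAt e1]
  exact (s1_deriv2 ha (hpos x le_rfl h2)).deriv

theorem deriv2_even {a A : ℝ} {s : ℝ → ℝ} (hp : IsProfile a A s) (x : ℝ) :
    deriv (deriv s) (-x) = deriv (deriv s) x := by
  have h1 : (fun y => s (-y)) = s := funext hp.even
  have h2 : ∀ y, deriv s (-y) = -deriv s y := by
    intro y
    have h := deriv_comp_neg s y
    rw [h1] at h
    linarith
  have h3 : (fun y => deriv s (-y)) = fun y => -deriv s y := funext h2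
  have h4 := deriv_comp_neg (deriv s) x
  rw [h3] at h4
  have h5 : deriv (fun y => -deriv s y) x = -deriv (deriv s) x := deriv.fun_neg
  rw [h5] at h4
  linarith

theorem kone_edge {a A : ℝ} {s : ℝ → ℝ} (hp : IsProfile a A s) {x : ℝ}
    (h1 : 19 / 20 * a ≤ |x|) (h2 : |x| < a) :
    8 * A ^ 4 / a ^ 2 ≤ s x ^ 3 * kone A s x := by
  have ha := hp.a_pos
  have ha2 := hp.a_le
  have hA := hp.A_pos
  have hdd : deriv (deriv s) x = -(2 * A * a / (Real.sqrt (a ^ 2 - x ^ 2)) ^ 3) := by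
    rcases le_total 0 x with h | h
    · rw [abs_of_nonneg h] at h1 h2
      exact kone_edge_pos hp h1 h2
    · rw [abs_of_nonpos h] at h1 h2
      have h3 := kone_edge_pos hp h1 h2
      rw [deriv2_even hp x, neg_sq] at h3
      exact h3
  have hs := hp.edge x h1 h2
  have he : 0 < a ^ 2 - x ^ 2 := by
    have h3 := abs_lt.1 h2
    nlinarith [h3.1, h3.2]
  have hq : 0 < Real.sqrt (a ^ 2 - x ^ 2) := Real.sqrt_pos.2 he
  set q := Real.sqrt (a ^ 2 - x ^ 2) with hqd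
  have hqa : q ≤ a := by
    rw [hqd, show a = Real.sqrt (a ^ 2) by rw [Real.sqrt_sq ha.le]]
    refine Real.sqrt_le_sqrt ?_
    rw [Real.sqrt_sq ha.le]
    nlinarith [sq_nonneg x]
  have hk := kap_pos'
  have hk1 := kap_le
  -- κ₁ ≥ A a / q³
  have hsA : s x ≤ 2 * A := by
    rw [hs, div_le_iff₀ ha]
    nlinarith
  have hk2 : kap ^ 2 ≤ 1 := by nlinarith
  have hq3 : q ^ 3 ≤ a ^ 3 := pow_le_pow_left₀ hq.le hqa 3
  have ha3 : 4 * a ^ 3 ≤ a := by nlinarith [mul_pos ha ha]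
  have hlow : 4 ≤ a / q ^ 3 := by
    rw [le_div_iff₀ (by positivity)]
    linarith
  have hs0 : 0 < s x := hp.pos x (abs_lt.1 h2)
  have hk3 : A * (a / q ^ 3) ≤ kone A s x := by
    unfold kone
    rw [hdd]
    have e : 2 * A * a / q ^ 3 = 2 * (A * (a / q ^ 3)) := by ring
    rw [e]
    have h5 : kap ^ 2 * s x + kap ^ 2 * A ≤ 3 * A := by nlinarith
    have h6 : 3 * A ≤ A * (a / q ^ 3) := by nlinarith
    linarith
  have h7 : s x ^ 3 * (A * (a / q ^ 3)) = 8 * A ^ 4 / a ^ 2 := by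
    rw [hs]
    field_simp
    ring
  rw [← h7]
  exact mul_le_mul_of_nonneg_left hk3 (by positivity)

theorem pa (hLH0 : S_LH0) (hFB : S_FB) : S_PA := by
  intro a A s hp α α' l hne w hw
  have ha := hp.a_pos
  have ha2 := hp.a_le
  have hA := hp.A_pos
  have hw' : |w.re| < a := hw
  have hk0 : 0 ≤ kone A s w.re := by
    have := hp.k1 w.re (abs_lt.1 hw')
    unfold kone
    linarith
  have hL := hLH0 a A s hp α α' l hne w hw
  obtain ⟨-, hFlow, hFup, -⟩ := hFB a A s hp α α' l w hw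
  have he : 0 < a ^ 2 - w.re ^ 2 := by
    have h3 := abs_lt.1 hw'
    nlinarith [h3.1, h3.2]
  have hs0 : 0 < s w.re := hp.pos _ (abs_lt.1 hw')
  have hg0 : 0 ≤ gf α' l w.im := by
    unfold gf
    positivity
  have hM2 : 0 < uf α w.im ^ 2 + gf α' l w.im := by
    rcases hne with h | h | h
    · have : 0 < uf α w.im ^ 2 := by
        have : uf α w.im ≠ 0 := by
          unfold uf
          exact mul_ne_zero h (Real.exp_pos _).ne'
        positivity
      linarith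
    · have : 0 < vf α' w.im ^ 2 := by
        have : vf α' w.im ≠ 0 := by
          unfold vf
          exact mul_ne_zero h (Real.exp_pos _).ne'
        positivity
      unfold gf
      nlinarith [sq_nonneg (uf α w.im), sq_nonneg l]
    · have : 0 < l ^ 2 := by positivity
      unfold gf
      nlinarith [sq_nonneg (uf α w.im), sq_nonneg (vf α' w.im)]
  have hk1 : 19 / 20 * a ≤ |w.re| → 8 * A ^ 4 / a ^ 2 ≤ s w.re ^ 3 * kone A s w.re := fun h =>
    kone_edge hp h hw'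
  have hsk : 0 ≤ s w.re ^ 3 * kone A s w.re := by positivity
  have hmax : 0 ≤ kap ^ 2 * A * max (-(uf α w.im)) 0 := by positivity
  set u := uf α w.im
  set g := gf α' l w.im
  set F := Ff a A s α α' l w
  set k := kone A s w.re
  set S := s w.re
  set e := a ^ 2 - w.re ^ 2 with hed
  set M := Real.sqrt (u ^ 2 + g) with hMd
  have hM : 0 < M := Real.sqrt_pos.2 hM2
  have hMsq : M ^ 2 = u ^ 2 + g := Real.sq_sqrt hM2.le
  have hF0 : 0 < F := lt_of_lt_of_le (by positivity) hFlow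
  have hea : e / a ^ 2 ≤ 1 := by
    rw [div_le_one (by positivity)]
    nlinarith [sq_nonneg w.re]
  have hFM : F ≤ (2 * A * M) ^ 2 := by
    calc F ≤ 4 * A ^ 2 * (e / a ^ 2) * (u ^ 2 + g) := hFup
      _ ≤ 4 * A ^ 2 * 1 * (u ^ 2 + g) := by
        refine mul_le_mul_of_nonneg_right ?_ hM2.le
        exact mul_le_mul_of_nonneg_left hea (by positivity)
      _ = (2 * A * M) ^ 2 := by rw [← hMsq]; ring
  have hsF : Real.sqrt F ≤ 2 * A * M := Real.sqrt_le_iff.2 ⟨by positivity, hFM⟩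
  have hsF0 : 0 < Real.sqrt F := Real.sqrt_pos.2 hF0
  have hden : 4 * F * Real.sqrt F ≤ 32 * A ^ 3 * M ^ 3 := by
    calc 4 * F * Real.sqrt F ≤ 4 * (2 * A * M) ^ 2 * (2 * A * M) :=
          mul_le_mul (by linarith) hsF hsF0.le (by positivity)
      _ = 32 * A ^ 3 * M ^ 3 := by ring
  have hden0 : 0 < 4 * F * Real.sqrt F := by positivity
  have ha4 : a ^ 2 ≤ 1 / 4 := by nlinarith
  -- the numerator
  set N := 4 * S ^ 3 * k * u ^ 4 + 18 / 5 * A ^ 4 * u ^ 2 * g + 48 * A ^ 4 * a ^ 2 * g ^ 2 with hN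
  have hA4 : 0 < A ^ 4 := by positivity
  have hN1 : 72 / 5 * a ^ 2 * A ^ 4 * g * M ^ 2 ≤ N := by
    rw [hN, hMsq]
    have t1 : 0 ≤ 4 * S ^ 3 * k * u ^ 4 := by positivity
    have t2 : 72 / 5 * a ^ 2 * (A ^ 4 * (u ^ 2 * g)) ≤ 18 / 5 * (A ^ 4 * (u ^ 2 * g)) :=
      mul_le_mul_of_nonneg_right (by linarith) (by positivity)
    have t3 : 0 ≤ (A ^ 4 * a ^ 2 * g ^ 2) := by positivity
    linarith
  have hN0 : 0 ≤ N := le_trans (by positivity) hN1
  have hdiv : ∀ X : ℝ, 0 ≤ X → X ≤ N → X / (32 * A ^ 3 * M ^ 3) ≤ N / (4 * F * Real.sqrt F) := by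
    intro X hX hXN
    calc X / (32 * A ^ 3 * M ^ 3) ≤ X / (4 * F * Real.sqrt F) :=
          div_le_div_of_nonneg_left hX hden0 hden
      _ ≤ N / (4 * F * Real.sqrt F) := div_le_div_of_nonneg_right hXN hden0.le
  refine ⟨hk0, ?_, fun hedge => ?_⟩
  · have h1 := hdiv _ (by positivity) hN1
    have h2 : 72 / 5 * a ^ 2 * A ^ 4 * g * M ^ 2 / (32 * A ^ 3 * M ^ 3) =
        9 / 20 * a ^ 2 * A * g / M := by
      field_simp
      ring
    rw [h2] at h1
    linarith
  · have hk2 := hk1 hedge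
    have hN2 : 12 * a ^ 2 * A ^ 4 * M ^ 4 ≤ N := by
      have e1 : M ^ 4 = (u ^ 2 + g) ^ 2 := by
        rw [← hMsq]
        ring
      rw [hN, e1]
      have t1 : 4 * (8 * A ^ 4 / a ^ 2) * u ^ 4 ≤ 4 * S ^ 3 * k * u ^ 4 := by
        have : 4 * S ^ 3 * k * u ^ 4 = 4 * (S ^ 3 * k) * u ^ 4 := by ring
        rw [this]
        refine mul_le_mul_of_nonneg_right ?_ (by positivity)
        linarith
      have t2 : 24 * a ^ 2 * A ^ 4 ≤ 4 * (8 * A ^ 4 / a ^ 2) := by
        rw [show 4 * (8 * A ^ 4 / a ^ 2) = 32 * A ^ 4 / a ^ 2 by ring,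
          le_div_iff₀ (by positivity)]
        have h6 : a ^ 2 * a ^ 2 ≤ 1 / 4 * (1 / 4) :=
          mul_le_mul ha4 ha4 (by positivity) (by norm_num)
        have h7 : a ^ 2 * a ^ 2 * A ^ 4 ≤ 1 / 4 * (1 / 4) * A ^ 4 :=
          mul_le_mul_of_nonneg_right h6 hA4.le
        linarith
      have t3 : 24 * a ^ 2 * A ^ 4 * u ^ 4 ≤ 4 * (8 * A ^ 4 / a ^ 2) * u ^ 4 :=
        mul_le_mul_of_nonneg_right t2 (by positivity)
      have t4 : 0 ≤ 12 * a ^ 2 * A ^ 4 * (u ^ 2 - g) ^ 2 := by positivity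
      have t5 : 0 ≤ A ^ 4 * u ^ 2 * g := by positivity
      have t6 : 0 ≤ a ^ 2 * A ^ 4 * g ^ 2 := by positivity
      have e2 : 12 * a ^ 2 * A ^ 4 * (u ^ 2 + g) ^ 2 = 24 * a ^ 2 * A ^ 4 * u ^ 4 +
          24 * (a ^ 2 * A ^ 4 * g ^ 2) - 12 * a ^ 2 * A ^ 4 * (u ^ 2 - g) ^ 2 := by ring
      have e3 : 48 * A ^ 4 * a ^ 2 * g ^ 2 = 48 * (a ^ 2 * A ^ 4 * g ^ 2) := by ring
      have e4 : 18 / 5 * A ^ 4 * u ^ 2 * g = 18 / 5 * (A ^ 4 * u ^ 2 * g) := by ring
      rw [e2, e3, e4]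
      linarith
    have h1 := hdiv _ (by positivity) hN2
    have h2 : 12 * a ^ 2 * A ^ 4 * M ^ 4 / (32 * A ^ 3 * M ^ 3) = 3 / 8 * a ^ 2 * A * M := by
      field_simp
      ring
    rw [h2] at h1
    linarith

end Pool.Agent.Helper80.AB
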