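import Pool.Agent.Helper24.AB.PHI.Goals

/-!
# Project AB (MP_1ef41b_an), module PHI, packet PH2: `Φ` is smooth and subharmonic
-/

set_option autoImplicit false

open MeasureTheory Set Filter Topology
open scoped ContDiff

noncomputable section

namespace Pool.Agent.Helper80.AB

open Pool.Agent.Helper24.AB

theorem isOpen_strip' (a : ℝ) : IsOpen (strip a) :=
  isOpen_lt (continuous_abs.comp Complex.continuous_re) continuous_const

theorem contDiff_re' : ContDiff ℝ ∞ (fun w : ℂ => w.re) := Complex.reCLM.contDiff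

theorem contDiff_im' : ContDiff ℝ ∞ (fun w : ℂ => w.im) := Complex.imCLM.contDiff

theorem s_re {a A : ℝ} {s : ℝ → ℝ} (hp : IsProfile a A s) :
    ContDiffOn ℝ ∞ (fun w : ℂ => s w.re) (strip a) :=
  hp.smooth.comp contDiff_re'.contDiffOn (fun _ hw => abs_lt.1 hw)

theorem uf_smooth (α : ℝ) : ContDiff ℝ ∞ (fun w : ℂ => uf α w.im) := by
  unfold uf
  exact contDiff_const.mul (Real.contDiff_exp.comp (contDiff_const.mul contDiff_im'))

theorem gf_smooth (α' l : ℝ) : ContDiff ℝ ∞ (fun w : ℂ => gf α' l w.im) := by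
  unfold gf vf
  exact ((contDiff_const.mul (Real.contDiff_exp.comp
    (contDiff_const.mul contDiff_im').neg)).pow 2).add contDiff_const

theorem Ff_smooth {a A : ℝ} {s : ℝ → ℝ} (hp : IsProfile a A s) (α α' l : ℝ) :
    ContDiffOn ℝ ∞ (Ff a A s α α' l) (strip a) := by
  unfold Ff
  refine ContDiffOn.add ?_ ?_
  · exact ((s_re hp).pow 2).mul ((uf_smooth α).pow 2).contDiffOn
  · exact ((contDiff_const.mul (contDiff_const.sub (contDiff_re'.pow 2))).mul
      (gf_smooth α' l)).contDiffOn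

theorem e_pos {a : ℝ} {w : ℂ} (hw : w ∈ strip a) : 0 < a ^ 2 - w.re ^ 2 := by
  have h1 : |w.re| < a := hw
  have h2 := abs_lt.1 h1
  nlinarith [h2.1, h2.2]

/-- smoothness of `Φ⁰` -/
theorem Phi0_smooth (hQF : S_QF) (hTEX : S_TEX) {a A : ℝ} {s : ℝ → ℝ} (hp : IsProfile a A s)
    (α α' l : ℝ) (hα : α ≠ 0) : ContDiffOn ℝ ∞ (Phi0 a A s α α' l) (strip a) := by
  have hF := Ff_smooth hp α α' l
  have hFpos : ∀ w ∈ strip a, 0 < Ff a A s α α' l w := fun w hw =>
    (hTEX a A s hp α α' l (Or.inl hα) w hw).1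
  have h1 : ContDiffOn ℝ ∞ (fun w : ℂ => Real.sqrt (Ff a A s α α' l w)) (strip a) :=
    hF.sqrt fun w hw => (hFpos w hw).ne'
  have h2 : ContDiffOn ℝ ∞ (fun w : ℂ => fy (2 * Real.sqrt (Ff a A s α α' l w))) (strip a) :=
    hQF.1.comp_contDiffOn (contDiffOn_const.mul h1)
  have h3 : ContDiffOn ℝ ∞ (fun w : ℂ => Real.log (fy (2 * Real.sqrt (Ff a A s α α' l w))))
      (strip a) := h2.log fun w _ => (hQF.2.1 _).ne'
  have h4 : ContDiffOn ℝ ∞ (fun w : ℂ => Real.log (s w.re)) (strip a) :=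
    (s_re hp).log fun w hw => (hp.pos _ (abs_lt.1 hw)).ne'
  have h5 : ContDiffOn ℝ ∞ (fun w : ℂ => Real.log (a ^ 2 - w.re ^ 2)) (strip a) :=
    (contDiff_const.sub (contDiff_re'.pow 2)).contDiffOn.log fun w hw => (e_pos hw).ne'
  have h6 : ContDiffOn ℝ ∞ (fun w : ℂ => -(A * uf α w.im)) (strip a) :=
    (contDiff_const.mul (uf_smooth α)).neg.contDiffOn
  unfold Phi0
  exact (((h6.sub (h4.div_const 2)).sub (h5.div_const 2)).sub (h3.div_const 2)).sub
    contDiffOn_const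

/-- `lapC` is linear on smooth functions -/
theorem lapC_lin {U : Set ℂ} (hU : IsOpen U) {f g : ℂ → ℝ} (hf : ContDiffOn ℝ ∞ f U)
    (hg : ContDiffOn ℝ ∞ g U) (c : ℝ) {w : ℂ} (hw : w ∈ U) :
    lapC (fun w => c * f w + g w) w = c * lapC f w + lapC g w := by
  have key : ∀ (v : ℂ) (f g : ℂ → ℝ), ContDiffOn ℝ ∞ f U → ContDiffOn ℝ ∞ g U → ∀ z ∈ U,
      fderiv ℝ (fun w => c * f w + g w) z v = c * fderiv ℝ f z v + fderiv ℝ g z v := by
    intro v f g hf hg z hz
    have hfd : DifferentiableAt ℝ f z :=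
      (hf.contDiffAt (hU.mem_nhds hz)).differentiableAt (by simp)
    have hgd : DifferentiableAt ℝ g z :=
      (hg.contDiffAt (hU.mem_nhds hz)).differentiableAt (by simp)
    have h := ((hfd.hasFDerivAt.const_mul c).add hgd.hasFDerivAt).fderiv
    have e : (fun w => c * f w + g w) = (fun w => c * f w) + g := rfl
    rw [e, h]
    rfl
  have sm : ∀ (v : ℂ) (f : ℂ → ℝ), ContDiffOn ℝ ∞ f U →
      ContDiffOn ℝ ∞ (fun w => fderiv ℝ f w v) U := fun v f hf =>
    (hf.fderiv_of_isOpen hU (by simp)).clm_apply contDiffOn_const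
  have two : ∀ v : ℂ, fderiv ℝ (fun z => fderiv ℝ (fun w => c * f w + g w) z v) w v =
      c * fderiv ℝ (fun z => fderiv ℝ f z v) w v + fderiv ℝ (fun z => fderiv ℝ g z v) w v := by
    intro v
    have h1 : (fun z => fderiv ℝ (fun w => c * f w + g w) z v) =ᶠ[𝓝 w]
        fun z => c * fderiv ℝ f z v + fderiv ℝ g z v := by
      filter_upwards [hU.mem_nhds hw] with z hz using key v f g hf hg z hz
    rw [h1.fderiv_eq]
    exact key v _ _ (sm v f hf) (sm v g hg) w hw
  have e1 := two 1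
  have e2 := two Complex.I
  show fderiv ℝ (fun z => fderiv ℝ (fun w => c * f w + g w) z 1) w 1 +
      fderiv ℝ (fun z => fderiv ℝ (fun w => c * f w + g w) z Complex.I) w Complex.I =
    c * (fderiv ℝ (fun z => fderiv ℝ f z 1) w 1 +
      fderiv ℝ (fun z => fderiv ℝ f z Complex.I) w Complex.I) +
    (fderiv ℝ (fun z => fderiv ℝ g z 1) w 1 +
      fderiv ℝ (fun z => fderiv ℝ g z Complex.I) w Complex.I)
  rw [e1, e2]
  ring

theorem ph2 (hQF : S_QF) (hTEX : S_TEX) (hPHI1 : S_PHI1) : S_PH2 := by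
  intro a A δ₀ ρ₀ s p B hp hpot hδ α α' l hα
  have hs0 := Phi0_smooth hQF hTEX hp α α' l hα
  have hsub : strip a ⊆ strip (3 * a / 2) := by
    intro w hw
    have h1 : |w.re| < a := hw
    have h2 := hp.a_pos
    show |w.re| < 3 * a / 2
    linarith
  have hps : ContDiffOn ℝ ∞ p (strip a) := hpot.smooth.mono hsub
  refine ⟨hs0, ?_, fun w hw => ?_⟩
  · unfold Phi
    exact (contDiffOn_const.mul hps).add hs0
  have hlap : lapC (Phi a A s p α α' l) w = α * lapC p w + lapC (Phi0 a A s α α' l) w :=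
    lapC_lin (isOpen_strip' a) hps hs0 α hw
  refine ⟨hlap, ?_⟩
  rw [hlap]
  obtain ⟨c, C, -, -, hall⟩ := hPHI1 a A s hp
  obtain ⟨hV1, -, hneg, -⟩ := hall α α' l hα w hw
  have hp2 := hpot.p2 w (hsub hw)
  have hp3 := (hpot.p3 w (hsub hw)).2.2
  rcases lt_or_gt_of_ne hα with h | h
  · have h1 := (hneg h).1
    have h2 : |uf α w.im| = -α * Real.exp (kap * w.im) := by
      unfold uf
      rw [abs_mul, abs_of_neg h, abs_of_pos (Real.exp_pos _)]
    have h3 : -α * lapC p w ≤ -α * (δ₀ * Real.exp (kap * w.im)) :=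
      mul_le_mul_of_nonneg_left hp3 (by linarith)
    have h4 : δ₀ * |uf α w.im| ≤ kap ^ 2 * A / 4 * |uf α w.im| :=
      mul_le_mul_of_nonneg_right hδ (abs_nonneg _)
    have h5 : -α * (δ₀ * Real.exp (kap * w.im)) = δ₀ * |uf α w.im| := by
      rw [h2]
      ring
    linarith
  · have h1 : 0 ≤ α * lapC p w := mul_nonneg h.le hp2
    linarith

end Pool.Agent.Helper80.AB
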